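import Pool.Agent.helper95.FI.SpecV
import Pool.Agent.helper32.RLS.ME

/-! Row fi:KAP (MP_ad8ced). -/

set_option autoImplicit false

namespace Pool.Agent.FI

open Finset

theorem KAP_split (n : ℕ) (hn : 2 ≤ n) :
    (Icc 1 n).filter Nat.Prime = insert 2 ((Ioc 2 n).filter Nat.Prime) := by
  ext p
  rw [mem_insert, mem_filter, mem_filter, mem_Icc, mem_Ioc]
  constructor
  · rintro ⟨h1, h2⟩
    rcases Nat.lt_or_ge 2 p with h | h
    · exact Or.inr ⟨⟨h, h1.2⟩, h2⟩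
    · exact Or.inl (le_antisymm h h2.two_le)
  · rintro (rfl | h)
    · exact ⟨⟨by norm_num, hn⟩, Nat.prime_two⟩
    · exact ⟨⟨by omega, h.1.2⟩, h.2⟩

theorem KAP_sq (n : ℕ) (hn : 2 ≤ n) : ∑ p ∈ (Icc 1 n).filter Nat.Prime, 1 / (p : ℝ) ^ 2 ≤ 1 := by
  have h1 := Pool.Agent.helper22.PD.sum_inv_sq_Ico 2 (n + 1) le_rfl (by omega)
  have h2 : ∑ p ∈ (Icc 1 n).filter Nat.Prime, 1 / (p : ℝ) ^ 2 ≤ ∑ m ∈ Ico 2 (n + 1), 1 / (m : ℝ) ^ 2 := by
    apply sum_le_sum_of_subset_of_nonneg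
    · intro p hp
      rw [mem_filter, mem_Icc] at hp
      rw [mem_Ico]
      exact ⟨hp.2.two_le, by omega⟩
    · intro i _ _
      positivity
  refine h2.trans (h1.trans ?_)
  have h3 : (0 : ℝ) < ((n + 1 : ℕ) : ℝ) - 1 := by
    push_cast
    have : (0 : ℝ) < n := by exact_mod_cast (by omega : 0 < n)
    linarith
  have h4 : (0 : ℝ) < 1 / (((n + 1 : ℕ) : ℝ) - 1) := by positivity
  push_cast at h4 ⊢
  linarith

theorem KAP : KAP_stmt := by
  obtain ⟨c, hc, h⟩ := Pool.Agent.RLS.ME_nat_up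
  refine ⟨Real.exp (5 / 2 - Real.log (Real.log 2) + c / Real.log 2), Real.exp_pos _, fun r => ?_⟩
  have hZ : 2 ≤ Zr r := by
    unfold Zr
    calc 2 = 2 ^ 1 := by norm_num
      _ ≤ 2 ^ 2 ^ r := Nat.pow_le_pow_right (by norm_num) Nat.one_le_two_pow
  have hp2 : ∀ p ∈ (Icc 1 (Zr r)).filter Nat.Prime, (0 : ℝ) ≤ 1 / (p : ℝ) ∧ 1 / (p : ℝ) ≤ 1 / 2 := by
    intro p hp
    rw [mem_filter] at hp
    have h2 : (2 : ℝ) ≤ p := by exact_mod_cast hp.2.two_le
    exact ⟨by positivity, one_div_le_one_div_of_le (by norm_num) h2⟩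
  constructor
  · unfold kap
    have key : ∏ _p ∈ (Icc 1 (Zr r)).filter Nat.Prime, (1 : ℝ) ≤
        ∏ p ∈ (Icc 1 (Zr r)).filter Nat.Prime, (1 - 1 / (p : ℝ))⁻¹ := by
      apply prod_le_prod
      · intro i _
        norm_num
      · intro p hp
        obtain ⟨h0, h1⟩ := hp2 p hp
        rw [one_le_inv₀ (by linarith)]
        linarith
    rwa [prod_const_one] at key
  · have h1 : kap r ≤ ∏ p ∈ (Icc 1 (Zr r)).filter Nat.Prime,
        Real.exp (1 / (p : ℝ) + 2 * (1 / (p : ℝ)) ^ 2) := by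
      unfold kap
      apply prod_le_prod
      · intro p hp
        obtain ⟨h0, h1⟩ := hp2 p hp
        exact inv_nonneg.2 (by linarith)
      · intro p hp
        obtain ⟨h0, h1⟩ := hp2 p hp
        have h2 := Pool.Agent.RLS.ME_low h1
        rw [Real.exp_neg] at h2
        rw [inv_le_comm₀ (by linarith) (Real.exp_pos _)]
        exact h2
    rw [← Real.exp_sum] at h1
    refine h1.trans ?_
    have hlZ : 0 < Real.log (Zr r) := Real.log_pos (by exact_mod_cast (by omega : 1 < Zr r))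
    have h2 : ∑ p ∈ (Icc 1 (Zr r)).filter Nat.Prime, (1 / (p : ℝ) + 2 * (1 / (p : ℝ)) ^ 2) ≤
        (5 / 2 - Real.log (Real.log 2) + c / Real.log 2) + Real.log (Real.log (Zr r)) := by
      rw [sum_add_distrib, ← mul_sum]
      have e1 : ∑ p ∈ (Icc 1 (Zr r)).filter Nat.Prime, (1 / (p : ℝ)) ^ 2 ≤ 1 := by
        refine le_trans (le_of_eq (sum_congr rfl fun p _ => ?_)) (KAP_sq (Zr r) hZ)
        rw [one_div_pow]
      have e2 : ∑ p ∈ (Icc 1 (Zr r)).filter Nat.Prime, 1 / (p : ℝ) =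
          1 / 2 + ∑ p ∈ (Ioc 2 (Zr r)).filter Nat.Prime, 1 / (p : ℝ) := by
        rw [KAP_split _ hZ, sum_insert]
        · norm_num
        · intro h
          rw [mem_filter, mem_Ioc] at h
          omega
      have e3 := h 2 (Zr r) le_rfl hZ
      rw [e2]
      push_cast at e3
      linarith
    calc Real.exp (∑ p ∈ (Icc 1 (Zr r)).filter Nat.Prime, (1 / (p : ℝ) + 2 * (1 / (p : ℝ)) ^ 2))
        ≤ Real.exp ((5 / 2 - Real.log (Real.log 2) + c / Real.log 2) + Real.log (Real.log (Zr r))) :=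
          Real.exp_le_exp.2 h2
      _ = Real.exp (5 / 2 - Real.log (Real.log 2) + c / Real.log 2) * Real.log (Zr r) := by
          rw [Real.exp_add, Real.exp_log hlZ]

end Pool.Agent.FI
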